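import Mathlib

namespace Pool.Agent.P.MP_84cbe7_co

open Matrix

/-- The Hermitian matrix `u · σ = u₁ σ₁ + u₂ σ₂ + u₃ σ₃` built from the Pauli matrices. -/
noncomputable def pauliDot (u : EuclideanSpace ℝ (Fin 3)) : Matrix (Fin 2) (Fin 2) ℂ :=
  (u 0 : ℂ) • !![0, 1; 1, 0] + (u 1 : ℂ) • !![0, -Complex.I; Complex.I, 0] +
    (u 2 : ℂ) • !![1, 0; 0, -1]

/-- The skew form `ω(a, b) = a₁ b₂ - a₂ b₁` on `ℂ²`. -/
def omega (a b : EuclideanSpace ℂ (Fin 2)) : ℂ := a 0 * b 1 - a 1 * b 0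

variable {n : ℕ} (G : SimpleGraph (Fin n))

/-- For the ordered pair `d = (i, j)` of adjacent vertices (a dart of `G`; the darts form the set
`S_G`), the unit vector `u_{ij} = (x_j - x_i) / ‖x_j - x_i‖`. -/
noncomputable def dir (x : Fin n → EuclideanSpace ℝ (Fin 3)) (d : G.Dart) :
    EuclideanSpace ℝ (Fin 3) :=
  ‖x d.snd - x d.fst‖⁻¹ • (x d.snd - x d.fst)

/-- `ψ` assigns to every `(i, j) ∈ S_G` a unit vector of `ℂ²` fixed by `u_{ij} · σ`. -/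
def IsSpinorLift (x : Fin n → EuclideanSpace ℝ (Fin 3))
    (ψ : G.Dart → EuclideanSpace ℂ (Fin 2)) : Prop :=
  ∀ d, ‖ψ d‖ = 1 ∧ pauliDot (dir G x d) *ᵥ (ψ d).ofLp = (ψ d).ofLp

/-- `Δ ⊆ S_G` contains exactly one of `(i, j)`, `(j, i)` for each edge. -/
def IsOrientation (Δ : Finset G.Dart) : Prop :=
  ∀ d : G.Dart, Xor (d ∈ Δ) (d.symm ∈ Δ)

open Classical in
/-- The `G`-amplitude computed with the spinors `ψ` and the orientation `Δ`; the sum runs over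
the group `P_G` of permutations of `S_G` that preserve the first index. -/
noncomputable def amplitude (ψ : G.Dart → EuclideanSpace ℂ (Fin 2)) (Δ : Finset G.Dart) : ℂ :=
  (∑ σ : Equiv.Perm G.Dart with ∀ d, (σ d).fst = d.fst,
      ∏ d ∈ Δ, omega (ψ (σ d)) (ψ (σ d.symm))) /
    ∏ d ∈ Δ, omega (ψ d) (ψ d.symm)

end Pool.Agent.P.MP_84cbe7_co
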