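import Pool.Agent.P.MP_84cbe7_co.Defs

namespace Pool.Agent.P.MP_84cbe7_co

open Matrix Finset

variable {n : ℕ} {G : SimpleGraph (Fin n)}

theorem omega_smul (a b : ℂ) (u v : EuclideanSpace ℂ (Fin 2)) :
    omega (a • u) (b • v) = a * b * omega u v := by
  simp [omega]; ring

theorem omega_swap (u v : EuclideanSpace ℂ (Fin 2)) : omega v u = - omega u v := by
  simp [omega]; ring

open Classical in
theorem prod_orient_pair {Δ : Finset G.Dart} (h : IsOrientation G Δ) (f : G.Dart → ℂ) :
    ∏ d ∈ Δ, (f d * f d.symm) = ∏ d, f d := by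
  rw [Finset.prod_mul_distrib, ← Finset.prod_mul_prod_compl Δ]
  congr 1
  refine Finset.prod_nbij' SimpleGraph.Dart.symm SimpleGraph.Dart.symm ?_ ?_ ?_ ?_ ?_
  · intro d hd
    have := h d
    simp only [Finset.mem_compl]
    grind
  · intro d hd
    have := h d
    simp only [Finset.mem_compl] at hd
    grind
  · intro d _; simp
  · intro d _; simp
  · intro d _; rfl

open Classical in
theorem amp_scale {Δ : Finset G.Dart} (h : IsOrientation G Δ)
    (ψ φ : G.Dart → EuclideanSpace ℂ (Fin 2)) (c : G.Dart → ℂ) (hc : ∀ d, c d ≠ 0)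
    (hψ : ∀ d, ψ d = c d • φ d) : amplitude G ψ Δ = amplitude G φ Δ := by
  have hC : (∏ d, c d) ≠ 0 := Finset.prod_ne_zero_iff.mpr fun d _ => hc d
  unfold amplitude
  have h1 : ∀ σ : Equiv.Perm G.Dart, ∏ d ∈ Δ, omega (ψ (σ d)) (ψ (σ d.symm)) =
      (∏ d, c d) * ∏ d ∈ Δ, omega (φ (σ d)) (φ (σ d.symm)) := by
    intro σ
    simp only [hψ, omega_smul]
    rw [Finset.prod_mul_distrib, prod_orient_pair h (fun d => c (σ d)), Equiv.prod_comp σ c]
  have h2 := h1 1
  simp only [Equiv.Perm.coe_one, id] at h2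
  simp only [h1, h2, ← Finset.mul_sum]
  exact mul_div_mul_left _ _ hC

open Classical in
theorem prod_symm_indep {Δ Δ' : Finset G.Dart} (h : IsOrientation G Δ) (h' : IsOrientation G Δ')
    (f : G.Dart → ℂ) (hf : ∀ d, f d.symm = f d) : ∏ d ∈ Δ, f d = ∏ d ∈ Δ', f d := by
  refine Finset.prod_nbij' (fun d => if d ∈ Δ' then d else d.symm)
    (fun d => if d ∈ Δ then d else d.symm) ?_ ?_ ?_ ?_ ?_
  · intro d _
    have := h' d
    split_ifs with hd <;> grind
  · intro d _
    have := h d
    split_ifs with hd <;> grind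
  · intro d hd
    have := h d
    have := h' d
    by_cases h1 : d ∈ Δ'
    · simp [h1, hd]
    · have : d.symm ∉ Δ := by grind
      simp [h1, this]
  · intro d hd
    have := h d
    have := h' d
    by_cases h1 : d ∈ Δ
    · simp [h1, hd]
    · have : d.symm ∉ Δ' := by grind
      simp [h1, this]
  · intro d _
    split_ifs <;> simp [hf]

open Classical in
theorem amp_orient {Δ Δ' : Finset G.Dart} (h : IsOrientation G Δ) (h' : IsOrientation G Δ')
    (ψ : G.Dart → EuclideanSpace ℂ (Fin 2)) : amplitude G ψ Δ = amplitude G ψ Δ' := by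
  unfold amplitude
  simp only [Finset.sum_div, ← Finset.prod_div_distrib]
  refine Finset.sum_congr rfl fun σ _ => prod_symm_indep h h' _ fun d => ?_
  rw [SimpleGraph.Dart.symm_symm, omega_swap (ψ (σ d)), omega_swap (ψ d), neg_div_neg_eq]

/-- Transfer-matrix recursion. -/
def transfer {R : Type} [CommRing R] : ℕ → (ℕ → Bool → Bool → R) → (Bool → R) → (Bool → R) → R
  | 0, _, u, v => u true * v true + u false * v false
  | m + 1, W, u, v =>
      transfer m (fun k => W (k + 1)) (fun t => u true * W 0 true t + u false * W 0 false t) v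

theorem sum_eq_transfer {R : Type} [CommRing R] (m : ℕ) (W : ℕ → Bool → Bool → R)
    (u v : Bool → R) :
    ∑ b : Fin (m + 1) → Bool,
      u (b 0) * (∏ k : Fin m, W k (b k.castSucc) (b k.succ)) * v (b (Fin.last m)) =
      transfer m W u v := by
  induction m generalizing W u with
  | zero =>
    rw [← (Equiv.funUnique (Fin 1) Bool).symm.sum_comp]
    simp [transfer]
  | succ m ih =>
    rw [transfer, ← ih, ← (Fin.consEquiv (fun _ : Fin (m + 2) => Bool)).sum_comp,
      Fintype.sum_prod_type, Finset.sum_comm]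
    refine Finset.sum_congr rfl fun b _ => ?_
    simp only [Fin.consEquiv, Equiv.coe_fn_mk, Fintype.sum_bool, Fin.prod_univ_succ,
      Fin.cons_zero, Fin.cons_succ, Fin.castSucc_zero, Fin.val_zero, Fin.val_succ,
      ← Fin.succ_castSucc, ← Fin.succ_last]
    ring

end Pool.Agent.P.MP_84cbe7_co
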