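import Pool.Agent.P.MP_84cbe7_co.General

namespace Pool.Agent.P.MP_84cbe7_co

open Matrix Finset SimpleGraph

/-- The path with `m` edges. -/
abbrev T (m : ℕ) : SimpleGraph (Fin (m + 1)) := pathGraph (m + 1)

variable {m : ℕ}

/-- The dart `(k, k+1)`. -/
def R (k : Fin m) : (T m).Dart := ⟨(k.castSucc, k.succ), by simp [pathGraph_adj]⟩

/-- The dart `(k+1, k)`. -/
def L (k : Fin m) : (T m).Dart := (R k).symm

theorem dart_ext {d e : (T m).Dart} (h1 : d.fst.val = e.fst.val) (h2 : d.snd.val = e.snd.val) :
    d = e := Dart.ext _ _ (Prod.ext (Fin.ext h1) (Fin.ext h2))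

theorem dart_adj (d : (T m).Dart) : d.fst.val + 1 = d.snd.val ∨ d.snd.val + 1 = d.fst.val :=
  pathGraph_adj.mp d.adj

@[simp] theorem R_fst (k : Fin m) : (R k).fst = k.castSucc := rfl
@[simp] theorem R_snd (k : Fin m) : (R k).snd = k.succ := rfl
@[simp] theorem L_fst (k : Fin m) : (L k).fst = k.succ := rfl
@[simp] theorem L_snd (k : Fin m) : (L k).snd = k.castSucc := rfl
theorem R_symm (k : Fin m) : (R k).symm = L k := rfl

theorem dart_cases (d : (T m).Dart) : (∃ k, d = R k) ∨ (∃ k, d = L k) := by
  have h1 := d.fst.isLt
  have h2 := d.snd.isLt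
  rcases dart_adj d with h | h
  · exact Or.inl ⟨⟨d.fst.val, by omega⟩, dart_ext (by simp) (by simp [h])⟩
  · exact Or.inr ⟨⟨d.snd.val, by omega⟩, dart_ext (by simp [h]) (by simp)⟩

theorem R_injective : Function.Injective (R : Fin m → (T m).Dart) := by
  intro a b h
  have := congrArg (fun d => d.fst) h
  simpa using this

open Classical in
/-- The orientation by increasing index. -/
noncomputable def Δ₀ (m : ℕ) : Finset (T m).Dart := univ.image R

theorem mem_Δ₀ (d : (T m).Dart) : d ∈ Δ₀ m ↔ d.fst.val + 1 = d.snd.val := by
  simp only [Δ₀, mem_image, mem_univ, true_and]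
  constructor
  · rintro ⟨k, rfl⟩; simp
  · intro h
    rcases dart_cases d with ⟨k, rfl⟩ | ⟨k, rfl⟩
    · exact ⟨k, rfl⟩
    · simp at h; omega

theorem Δ₀_orient : IsOrientation (T m) (Δ₀ m) := by
  intro d
  have := dart_adj d
  rw [mem_Δ₀, mem_Δ₀]
  simp only [Dart.symm_toProd, Prod.fst_swap, Prod.snd_swap, Xor]
  omega

/-- The other dart at the same vertex, if there is one. -/
def other (d : (T m).Dart) : (T m).Dart :=
  if h : 0 < d.fst.val ∧ d.fst.val < m then
    ⟨(d.fst, ⟨2 * d.fst.val - d.snd.val, by have := dart_adj d; omega⟩), by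
      have := dart_adj d
      simp only [pathGraph_adj]; omega⟩
  else d

@[simp] theorem other_fst (d : (T m).Dart) : (other d).fst = d.fst := by
  unfold other; split_ifs <;> rfl

theorem other_snd (d : (T m).Dart) : (other d).snd.val =
    if 0 < d.fst.val ∧ d.fst.val < m then 2 * d.fst.val - d.snd.val else d.snd.val := by
  unfold other; split_ifs <;> rfl

theorem other_other (d : (T m).Dart) : other (other d) = d := by
  have := dart_adj d
  apply dart_ext
  · simp
  · rw [other_snd, other_snd, other_fst]
    split_ifs <;> omega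

theorem eq_or_other {d e : (T m).Dart} (h : e.fst = d.fst) : e = d ∨ e = other d := by
  have h1 := dart_adj d
  have h2 := dart_adj e
  have h3 := d.snd.isLt
  have h4 := e.snd.isLt
  have h5 : e.fst.val = d.fst.val := by rw [h]
  by_cases h6 : e.snd.val = d.snd.val
  · exact Or.inl (dart_ext h5 h6)
  · refine Or.inr (dart_ext (by simp [h]) ?_)
    rw [other_snd]
    split_ifs <;> omega

/-- The permutation swapping the two darts at the vertices marked by `b`. -/
def sw (b : Fin (m + 1) → Bool) : Equiv.Perm (T m).Dart :=
  Function.Involutive.toPerm (fun d => if b d.fst then other d else d) (by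
    intro d
    by_cases h : b d.fst <;> simp [h, other_other])

theorem sw_apply (b : Fin (m + 1) → Bool) (d : (T m).Dart) :
    sw b d = if b d.fst then other d else d := rfl

theorem other_ne {d : (T m).Dart} (h : 0 < d.fst.val ∧ d.fst.val < m) : other d ≠ d := by
  intro he
  have h1 := congrArg (fun e => e.snd.val) he
  have := dart_adj d
  simp only [other_snd, h, and_self, if_true] at h1
  omega

open Classical in
theorem sum_P (F : Equiv.Perm (T m).Dart → ℂ) :
    ∑ σ : Equiv.Perm (T m).Dart with ∀ d, (σ d).fst = d.fst, F σ =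
      ∑ b : Fin (m + 1) → Bool with b 0 = false ∧ b (Fin.last m) = false, F (sw b) := by
  symm
  refine Finset.sum_bij (fun b _ => sw b) ?_ ?_ ?_ ?_
  · intro b _
    simp only [mem_filter, mem_univ, true_and, sw_apply]
    intro d
    split_ifs <;> simp
  · intro b hb b' hb' h
    simp only [mem_filter, mem_univ, true_and] at hb hb'
    funext v
    by_cases h0 : 0 < v.val ∧ v.val < m
    · have h1 := congrArg (fun σ => σ (R ⟨v.val, h0.2⟩)) h
      have h2 : (R (⟨v.val, h0.2⟩ : Fin m)).fst = v := Fin.ext (by simp)
      have h3 : other (R (⟨v.val, h0.2⟩ : Fin m)) ≠ R ⟨v.val, h0.2⟩ := other_ne (by simpa using h0)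
      simp only [sw_apply, h2] at h1
      cases hv : b v <;> cases hv' : b' v <;> simp only [hv, hv', if_true, if_false,
        Bool.false_eq_true] at h1 ⊢
      · exact absurd h1.symm h3
      · exact absurd h1 h3
    · have := v.isLt
      rcases (by omega : v.val = 0 ∨ v.val = m) with h1 | h1
      · obtain rfl : v = 0 := Fin.ext h1
        rw [hb.1, hb'.1]
      · obtain rfl : v = Fin.last m := Fin.ext h1
        rw [hb.2, hb'.2]
  · intro σ hσ
    simp only [mem_filter, mem_univ, true_and] at hσ
    refine ⟨fun v => decide (∃ d : (T m).Dart, d.fst = v ∧ σ d ≠ d), ?_, ?_⟩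
    · simp only [mem_filter, mem_univ, true_and, decide_eq_false_iff_not, not_exists, not_and,
        not_not]
      constructor
      · intro d hd
        rcases eq_or_other (hσ d) with h | h
        · exact h
        · rw [h, other, dif_neg (by simp [hd])]
      · intro d hd
        rcases eq_or_other (hσ d) with h | h
        · exact h
        · rw [h, other, dif_neg (by simp [hd])]
    · ext1 d
      rw [sw_apply]
      split_ifs with h
      · simp only [decide_eq_true_eq] at h
        obtain ⟨e, he, hne⟩ := h
        rcases eq_or_other (hσ d) with h1 | h1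
        · exfalso
          rcases eq_or_other he with h2 | h2
          · exact hne (by rw [h2, h1])
          · rcases eq_or_other (hσ e) with h3 | h3
            · exact hne h3
            · rw [h2, other_other] at h3
              have h4 := σ.injective (h3.trans h1.symm)
              exact hne (by rw [h2, h4, h1])
        · exact h1.symm
      · simp only [decide_eq_true_eq, not_exists, not_and, not_not] at h
        exact (h d rfl).symm
  · intro b _; rfl

end Pool.Agent.P.MP_84cbe7_co
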