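import Pool.Agent.P.MP_84cbe7_co.Path

namespace Pool.Agent.P.MP_84cbe7_co

open Matrix Finset SimpleGraph

/-- Integral spinors for the directions `e₁, e₂, e₃`. -/
def spG (j : ℕ) : GaussianInt × GaussianInt :=
  if j % 3 = 0 then (1, 1) else if j % 3 = 1 then (1, ⟨0, 1⟩) else (1, 0)

/-- Integral spinors for the directions `-e₁, -e₂, -e₃`. -/
def smG (j : ℕ) : GaussianInt × GaussianInt :=
  if j % 3 = 0 then (1, -1) else if j % 3 = 1 then (1, ⟨0, -1⟩) else (0, 1)

def omegaG (p q : GaussianInt × GaussianInt) : GaussianInt := p.1 * q.2 - p.2 * q.1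

noncomputable def toE (p : GaussianInt × GaussianInt) : EuclideanSpace ℂ (Fin 2) :=
  !₂[GaussianInt.toComplex p.1, GaussianInt.toComplex p.2]

theorem omega_toE (p q : GaussianInt × GaussianInt) :
    omega (toE p) (toE q) = GaussianInt.toComplex (omegaG p q) := by
  simp [omega, toE, omegaG]

variable {m : ℕ}

def φG (d : (T m).Dart) : GaussianInt × GaussianInt :=
  if d.fst.val < d.snd.val then spG d.fst.val else smG d.snd.val

def W (k : ℕ) (s t : Bool) : GaussianInt :=
  omegaG (if s then smG (k - 1) else spG k) (if t then spG (k + 1) else smG k)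

theorem φG_sw_R (b : Fin (m + 1) → Bool) (hb : b 0 = false) (k : Fin m) :
    φG (sw b (R k)) = if b k.castSucc then smG (k.val - 1) else spG k.val := by
  rw [sw_apply, R_fst]
  by_cases h : b k.castSucc = true
  · have hk : 0 < k.val := by
      rcases Nat.eq_zero_or_pos k.val with h0 | h0
      · have : k.castSucc = 0 := Fin.ext h0
        rw [this, hb] at h; simp at h
      · exact h0
    have h2 : (other (R k)).snd.val = k.val - 1 := by
      rw [other_snd]; simp [hk]; omega
    simp only [h, if_true, φG, other_fst, h2, R_fst, Fin.val_castSucc]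
    rw [if_neg (by omega)]
  · simp [h, φG]

theorem φG_sw_L (b : Fin (m + 1) → Bool) (hb : b (Fin.last m) = false) (k : Fin m) :
    φG (sw b (L k)) = if b k.succ then spG (k.val + 1) else smG k.val := by
  rw [sw_apply, L_fst]
  by_cases h : b k.succ = true
  · have hk : k.val + 1 < m := by
      have := k.isLt
      rcases (by omega : k.val + 1 = m ∨ k.val + 1 < m) with h0 | h0
      · have : k.succ = Fin.last m := Fin.ext h0
        rw [this, hb] at h; simp at h
      · exact h0
    have h2 : (other (L k)).snd.val = k.val + 2 := by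
      rw [other_snd]; simp [hk]; omega
    simp only [h, if_true, φG, other_fst, h2, L_fst, Fin.val_succ]
    rw [if_pos (by omega)]
  · simp [h, φG]

def ind (s : Bool) : GaussianInt := if s then 0 else 1

open Classical in
theorem amp_φ (m : ℕ) : amplitude (T m) (fun d => toE (φG d)) (Δ₀ m) =
    GaussianInt.toComplex (transfer m W ind ind) /
      GaussianInt.toComplex (∏ k : Fin m, W k false false) := by
  unfold amplitude
  congr 1
  · rw [← sum_eq_transfer, map_sum]
    refine Eq.trans (by congr) ((sum_P (m := m)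
      (fun σ => ∏ d ∈ Δ₀ m, omega (toE (φG (σ d))) (toE (φG (σ d.symm))))).trans ?_)
    rw [Finset.sum_filter]
    refine Finset.sum_congr rfl fun b _ => ?_
    split_ifs with h
    · rw [Δ₀, Finset.prod_image (fun a _ b _ h => R_injective h)]
      simp only [R_symm, φG_sw_R b h.1, φG_sw_L b h.2, omega_toE, h.1, h.2, ind, W]
      simp
    · rw [not_and_or] at h
      rcases h with h | h <;> simp [ind, h]
  · rw [Δ₀, Finset.prod_image (fun a _ b _ h => R_injective h), map_prod]
    refine Finset.prod_congr rfl fun k _ => ?_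
    simp [R_symm, omega_toE, φG, W]

theorem num17 : transfer 17 W ind ind = ⟨191976, -2060376⟩ := by decide +kernel

theorem den17 : ∏ k : Fin 17, W k false false = ⟨-4096, 0⟩ := by decide +kernel

theorem amp17 : (amplitude (T 17) (fun d => toE (φG d)) (Δ₀ 17)).re < 0 := by
  rw [amp_φ, num17, den17]
  simp [GaussianInt.toComplex_def', Complex.div_re, Complex.normSq_apply]
  norm_num

/-- The staircase `x₀ = 0`, `x_{k+1} = x_k + e_{k mod 3}`. -/
noncomputable def stair (k : ℕ) : EuclideanSpace ℝ (Fin 3) :=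
  !₂[(((k + 2) / 3 : ℕ) : ℝ), (((k + 1) / 3 : ℕ) : ℝ), ((k / 3 : ℕ) : ℝ)]

/-- The unit vector `e_{j mod 3}`. -/
noncomputable def ax (j : ℕ) : EuclideanSpace ℝ (Fin 3) :=
  !₂[if j % 3 = 0 then 1 else 0, if j % 3 = 1 then 1 else 0, if j % 3 = 2 then 1 else 0]

theorem stair_succ (k : ℕ) : stair (k + 1) - stair k = ax k := by
  have h0 : (k + 1 + 2) / 3 = (k + 2) / 3 + if k % 3 = 0 then 1 else 0 := by split_ifs <;> omega
  have h1 : (k + 1 + 1) / 3 = (k + 1) / 3 + if k % 3 = 1 then 1 else 0 := by split_ifs <;> omega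
  have h2 : (k + 1) / 3 = k / 3 + if k % 3 = 2 then 1 else 0 := by split_ifs <;> omega
  ext i
  fin_cases i
  · simp only [stair, ax]; rw [h0]; simp
  · simp only [stair, ax]; rw [h1]; simp
  · simp only [stair, ax]; rw [h2]; simp

theorem norm_ax (j : ℕ) : ‖ax j‖ = 1 := by
  rw [EuclideanSpace.norm_eq, Fin.sum_univ_three]
  rcases (by omega : j % 3 = 0 ∨ j % 3 = 1 ∨ j % 3 = 2) with h | h | h <;> simp [ax, h]

theorem stair_injective : Function.Injective stair := by
  intro a b h
  have h0 := congrArg (fun v => v 0) h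
  have h1 := congrArg (fun v => v 1) h
  have h2 := congrArg (fun v => v 2) h
  simp only [stair, Matrix.cons_val, Nat.cast_inj] at h0 h1 h2
  omega

theorem dir_R (k : Fin m) : dir (T m) (fun i => stair i.val) (R k) = ax k := by
  simp [dir, stair_succ, norm_ax]

theorem dir_L (k : Fin m) : dir (T m) (fun i => stair i.val) (L k) = - ax k := by
  simp only [dir, L_fst, L_snd, Fin.val_succ, Fin.val_castSucc]
  rw [← neg_sub, stair_succ, norm_neg, norm_ax]
  simp

theorem eig_sp (j : ℕ) (v : EuclideanSpace ℂ (Fin 2)) :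
    pauliDot (ax j) *ᵥ v.ofLp = v.ofLp ↔ ∃ c : ℂ, v = c • toE (spG j) := by
  constructor
  · intro h
    have h0 := congrFun h 0
    have h1 := congrFun h 1
    refine ⟨v 0, ?_⟩
    ext i
    rcases (by omega : j % 3 = 0 ∨ j % 3 = 1 ∨ j % 3 = 2) with hj | hj | hj <;>
      simp [pauliDot, ax, hj, Matrix.mulVec, dotProduct, Fin.sum_univ_two] at h0 h1 <;>
      fin_cases i <;> simp [toE, spG, hj, GaussianInt.toComplex_def']
    · exact h0
    · rw [← h1, mul_comm]
    · linear_combination (-1 / 2 : ℂ) * h1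
  · rintro ⟨c, rfl⟩
    ext i
    rcases (by omega : j % 3 = 0 ∨ j % 3 = 1 ∨ j % 3 = 2) with hj | hj | hj <;>
      fin_cases i <;>
      simp [pauliDot, ax, hj, Matrix.mulVec, dotProduct, Fin.sum_univ_two, toE, spG,
        GaussianInt.toComplex_def']
    · linear_combination (-c) * Complex.I_mul_I
    · rw [mul_comm]

theorem eig_sm (j : ℕ) (v : EuclideanSpace ℂ (Fin 2)) :
    pauliDot (- ax j) *ᵥ v.ofLp = v.ofLp ↔ ∃ c : ℂ, v = c • toE (smG j) := by
  constructor
  · intro h
    have h0 := congrFun h 0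
    have h1 := congrFun h 1
    refine ⟨if j % 3 = 2 then v 1 else v 0, ?_⟩
    ext i
    rcases (by omega : j % 3 = 0 ∨ j % 3 = 1 ∨ j % 3 = 2) with hj | hj | hj <;>
      simp [pauliDot, ax, hj, Matrix.mulVec, dotProduct, Fin.sum_univ_two] at h0 h1 <;>
      fin_cases i <;> simp [toE, smG, hj, GaussianInt.toComplex_def']
    · exact h1.symm
    · rw [← h1, mul_comm]
    · linear_combination (-1 / 2 : ℂ) * h0
  · rintro ⟨c, rfl⟩
    ext i
    rcases (by omega : j % 3 = 0 ∨ j % 3 = 1 ∨ j % 3 = 2) with hj | hj | hj <;>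
      fin_cases i <;>
      simp [pauliDot, ax, hj, Matrix.mulVec, dotProduct, Fin.sum_univ_two, toE, smG,
        GaussianInt.toComplex_def']
    · linear_combination (-c) * Complex.I_mul_I
    · rw [mul_comm]

theorem eig_φ (d : (T m).Dart) (v : EuclideanSpace ℂ (Fin 2)) :
    pauliDot (dir (T m) (fun i => stair i.val) d) *ᵥ v.ofLp = v.ofLp ↔
      ∃ c : ℂ, v = c • toE (φG d) := by
  rcases dart_cases d with ⟨k, rfl⟩ | ⟨k, rfl⟩
  · rw [dir_R, eig_sp]; simp [φG]
  · rw [dir_L, eig_sm]; simp [φG]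

theorem φ_ne (d : (T m).Dart) : toE (φG d) ≠ 0 := by
  intro h
  have h0 := congrArg (fun v => v 0) h
  have h1 := congrArg (fun v => v 1) h
  simp only [φG, spG, smG] at h0 h1
  split_ifs at h0 h1 <;> simp [toE] at h0 h1

theorem exists_lift (m : ℕ) : ∃ ψ, IsSpinorLift (T m) (fun i => stair i.val) ψ := by
  refine ⟨fun d => ((‖toE (φG d)‖⁻¹ : ℝ) : ℂ) • toE (φG d), fun d => ⟨?_, ?_⟩⟩
  · rw [norm_smul, Complex.norm_real, norm_inv, norm_norm,
      inv_mul_cancel₀ (norm_ne_zero_iff.mpr (φ_ne d))]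
  · exact (eig_φ d _).mpr ⟨_, rfl⟩

theorem amp_eq {ψ : (T m).Dart → EuclideanSpace ℂ (Fin 2)} {Δ : Finset (T m).Dart}
    (hψ : IsSpinorLift (T m) (fun i => stair i.val) ψ) (hΔ : IsOrientation (T m) Δ) :
    amplitude (T m) ψ Δ = amplitude (T m) (fun d => toE (φG d)) (Δ₀ m) := by
  choose c hc using fun d => (eig_φ d (ψ d)).mp (hψ d).2
  rw [amp_scale hΔ ψ _ c ?_ hc, amp_orient hΔ Δ₀_orient]
  intro d h
  have := (hψ d).1
  rw [hc d, h, zero_smul, norm_zero] at this
  exact zero_ne_one this

theorem T_isTree (m : ℕ) : (T m).IsTree := by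
  classical
  rw [isTree_iff_connected_and_card]
  refine ⟨pathGraph_connected m, ?_⟩
  have h1 := (T m).dart_card_eq_twice_card_edges
  have h2 : Fintype.card (T m).Dart = 2 * m := by
    have : Fintype.card (T m).Dart = Fintype.card (Fin m ⊕ Fin m) := by
      symm
      refine Fintype.card_of_bijective (f := Sum.elim R L) ⟨?_, ?_⟩
      · rintro (a | a) (b | b) h <;>
          have h1 := congrArg (fun d => d.fst.val) h <;>
          have h2 := congrArg (fun d => d.snd.val) h <;>
          simp at h1 h2 <;> first | omega | (congr 1; ext; omega)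
      · intro d
        rcases dart_cases d with ⟨k, rfl⟩ | ⟨k, rfl⟩
        · exact ⟨Sum.inl k, rfl⟩
        · exact ⟨Sum.inr k, rfl⟩
    rw [this]; simp [two_mul]
  rw [Nat.card_eq_fintype_card, ← edgeFinset_card, Nat.card_eq_fintype_card, Fintype.card_fin]
  omega

end Pool.Agent.P.MP_84cbe7_co
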